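import Pool.Agent.H466.HN.Stm5

/-!
# HN-NS: equally spaced zeros have small exponential sums
-/

set_option autoImplicit false

namespace Pool.Agent.H79.HN

open Complex MeasureTheory Set Filter Topology
open Pool.Agent.H862.VK (Yz)
open Pool.Agent.H466.HP Pool.Agent.H466.HN

/-- geometric sums away from the integers -/
theorem geo (n : ℕ) (x : ℝ) (h1 : Real.pi / 32 ≤ x) (h2 : x ≤ Real.pi / 16) :
    ‖∑ j ∈ Finset.range n, cexp (I * ((j * x : ℝ) : ℂ))‖ ≤ 21 := by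
  set r : ℂ := cexp (I * (x : ℂ)) with hr
  have hpow : ∀ j : ℕ, cexp (I * ((j * x : ℝ) : ℂ)) = r ^ j := by
    intro j
    rw [hr, ← Complex.exp_nat_mul]
    congr 1
    push_cast
    ring
  have hsum : (∑ j ∈ Finset.range n, cexp (I * ((j * x : ℝ) : ℂ))) * (r - 1) = r ^ n - 1 := by
    rw [Finset.sum_congr rfl (fun j _ => hpow j)]
    exact geom_sum_mul r n
  have hnr : ‖r‖ = 1 := Complex.norm_exp_I_mul_ofReal x
  have hup : ‖r ^ n - 1‖ ≤ 2 := by
    calc ‖r ^ n - 1‖ ≤ ‖r ^ n‖ + ‖(1 : ℂ)‖ := norm_sub_le _ _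
      _ = 2 := by rw [norm_pow, hnr, one_pow, norm_one]; norm_num
  have hpi := Real.pi_gt_d2
  have hpi2 := Real.pi_lt_d2
  have hsin : (0.048 : ℝ) ≤ Real.sin (x / 2) := by
    have h3 : Real.sin (Real.pi / 64) ≤ Real.sin (x / 2) := by
      apply Real.sin_le_sin_of_le_of_le_pi_div_two
      · linarith
      · linarith
      · linarith
    have h4 := Real.sin_gt_sub_cube (x := Real.pi / 64) (by positivity)
    have h5 : (Real.pi / 64) ^ 3 ≤ 0.00013 := by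
      have h6 : Real.pi / 64 ≤ 0.05 := by linarith
      have h7 : (Real.pi / 64) ^ 3 ≤ 0.05 ^ 3 :=
        pow_le_pow_left₀ (by positivity) h6 3
      norm_num at h7 ⊢
      linarith
    norm_num at h5 ⊢
    linarith
  have hlow : (0.096 : ℝ) ≤ ‖r - 1‖ := by
    rw [hr, Complex.norm_exp_I_mul_ofReal_sub_one, Real.norm_eq_abs, abs_of_nonneg (by linarith)]
    linarith
  have h8 : ‖∑ j ∈ Finset.range n, cexp (I * ((j * x : ℝ) : ℂ))‖ * ‖r - 1‖ ≤ 2 := by
    rw [← norm_mul, hsum]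
    exact hup
  have h9 : ‖∑ j ∈ Finset.range n, cexp (I * ((j * x : ℝ) : ℂ))‖ * 0.096 ≤ 2 :=
    (mul_le_mul_of_nonneg_left hlow (norm_nonneg _)).trans h8
  norm_num at h9 ⊢
  linarith

theorem exp_sub_exp_le (a b : ℝ) : ‖cexp (I * (a : ℂ)) - cexp (I * (b : ℂ))‖ ≤ |a - b| := by
  have h1 : cexp (I * (a : ℂ)) - cexp (I * (b : ℂ))
      = cexp (I * (b : ℂ)) * (cexp (I * ((a - b : ℝ) : ℂ)) - 1) := by
    rw [mul_sub, ← Complex.exp_add, mul_one]
    congr 2
    push_cast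
    ring
  rw [h1, norm_mul, Complex.norm_exp_I_mul_ofReal, one_mul]
  exact Real.norm_exp_I_mul_ofReal_sub_one_le

/-- an almost arithmetic progression has a small exponential sum -/
theorem prog (n : ℕ) (e : Fin n → ℝ) (u L ε W' e0 : ℝ) (hL : 0 < L) (hε : 0 < ε)
    (hu1 : L / 64 ≤ u) (hu2 : u ≤ L / 32) (hW : 0 < W') (hn : (n : ℝ) ≤ W')
    (hWε : W' ^ 2 * ε ≤ 1) (hWL : W' ^ 3 ≤ L ^ 2)
    (hlin : ∀ j : Fin n, |e j - e0 - (j : ℕ) * (2 * Real.pi / L)| ≤ (j : ℕ) * (ε / L))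
    (hwin : ∀ j : Fin n, |e j| ≤ W' / L) :
    ‖∑ j : Fin n, cexp (I * ((u * e j : ℝ) : ℂ)) * (Real.exp (-(e j) ^ 2 / 2) : ℂ)‖ ≤ 30 := by
  have hu0 : 0 < u := by
    have : 0 < L / 64 := by positivity
    linarith
  -- the main term
  set x := 2 * Real.pi * u / L with hx
  have hx1 : Real.pi / 32 ≤ x := by
    rw [hx, le_div_iff₀ hL]
    nlinarith [Real.pi_pos]
  have hx2 : x ≤ Real.pi / 16 := by
    rw [hx, div_le_iff₀ hL]
    nlinarith [Real.pi_pos]
  have hmain : ‖∑ j : Fin n, cexp (I * ((u * (e0 + (j : ℕ) * (2 * Real.pi / L)) : ℝ) : ℂ))‖ ≤ 21 := by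
    have h1 : ∀ j : Fin n, cexp (I * ((u * (e0 + (j : ℕ) * (2 * Real.pi / L)) : ℝ) : ℂ))
        = cexp (I * ((u * e0 : ℝ) : ℂ)) * cexp (I * (((j : ℕ) * x : ℝ) : ℂ)) := by
      intro j
      rw [← Complex.exp_add]
      congr 1
      rw [hx]
      push_cast
      ring
    rw [Finset.sum_congr rfl (fun j _ => h1 j), ← Finset.mul_sum, norm_mul,
      Complex.norm_exp_I_mul_ofReal, one_mul,
      Fin.sum_univ_eq_sum_range (fun j : ℕ => cexp (I * ((j * x : ℝ) : ℂ))) n]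
    exact geo n x hx1 hx2
  have hterm : ∀ j : Fin n, ‖cexp (I * ((u * e j : ℝ) : ℂ)) * (Real.exp (-(e j) ^ 2 / 2) : ℂ)
      - cexp (I * ((u * (e0 + (j : ℕ) * (2 * Real.pi / L)) : ℝ) : ℂ))‖ ≤ 1 / W' + 1 / W' := by
    intro j
    have hj : ((j : ℕ) : ℝ) ≤ W' := by
      have : ((j : ℕ) : ℝ) ≤ n := by exact_mod_cast j.2.le
      linarith
    have h2 : cexp (I * ((u * e j : ℝ) : ℂ)) * (Real.exp (-(e j) ^ 2 / 2) : ℂ)
        - cexp (I * ((u * (e0 + (j : ℕ) * (2 * Real.pi / L)) : ℝ) : ℂ))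
        = cexp (I * ((u * e j : ℝ) : ℂ)) * ((Real.exp (-(e j) ^ 2 / 2) - 1 : ℝ) : ℂ)
          + (cexp (I * ((u * e j : ℝ) : ℂ))
            - cexp (I * ((u * (e0 + (j : ℕ) * (2 * Real.pi / L)) : ℝ) : ℂ))) := by
      rw [Complex.ofReal_sub, Complex.ofReal_one]
      ring
    rw [h2]
    refine (norm_add_le _ _).trans (add_le_add ?_ ?_)
    · rw [norm_mul, Complex.norm_exp_I_mul_ofReal, one_mul, Complex.norm_real, Real.norm_eq_abs]
      have h3 : Real.exp (-(e j) ^ 2 / 2) ≤ 1 := by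
        rw [Real.exp_le_one_iff]
        have := sq_nonneg (e j)
        linarith
      have h4 : -(e j) ^ 2 / 2 + 1 ≤ Real.exp (-(e j) ^ 2 / 2) := Real.add_one_le_exp _
      rw [abs_of_nonpos (by linarith)]
      have h5 : (e j) ^ 2 ≤ (W' / L) ^ 2 := sq_le_sq' (abs_le.mp (hwin j)).1 (abs_le.mp (hwin j)).2
      have h6 : (W' / L) ^ 2 ≤ 1 / W' := by
        rw [div_pow, div_le_div_iff₀ (by positivity) hW]
        nlinarith [hWL]
      linarith [sq_nonneg (e j)]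
    · refine (exp_sub_exp_le _ _).trans ?_
      have h3 : u * e j - u * (e0 + (j : ℕ) * (2 * Real.pi / L))
          = u * (e j - e0 - (j : ℕ) * (2 * Real.pi / L)) := by ring
      rw [h3, abs_mul, abs_of_pos hu0]
      have h4 : u * |e j - e0 - (j : ℕ) * (2 * Real.pi / L)| ≤ (L / 32) * (W' * (ε / L)) := by
        apply mul_le_mul hu2 _ (abs_nonneg _) (by positivity)
        exact (hlin j).trans (mul_le_mul_of_nonneg_right hj (by positivity))
      refine h4.trans ?_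
      have h5 : L / 32 * (W' * (ε / L)) = W' * ε / 32 := by field_simp
      rw [h5, div_le_div_iff₀ (by norm_num) hW]
      nlinarith
  have hdiff : ‖∑ j : Fin n, cexp (I * ((u * e j : ℝ) : ℂ)) * (Real.exp (-(e j) ^ 2 / 2) : ℂ)
      - ∑ j : Fin n, cexp (I * ((u * (e0 + (j : ℕ) * (2 * Real.pi / L)) : ℝ) : ℂ))‖ ≤ 2 := by
    rw [← Finset.sum_sub_distrib]
    refine (norm_sum_le _ _).trans ?_
    refine (Finset.sum_le_sum (fun j _ => hterm j)).trans ?_
    rw [Finset.sum_const, Finset.card_univ, Fintype.card_fin, nsmul_eq_mul]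
    have h3 : (n : ℝ) * (1 / W' + 1 / W') ≤ W' * (1 / W' + 1 / W') :=
      mul_le_mul_of_nonneg_right hn (by positivity)
    have h4 : W' * (1 / W' + 1 / W') = 2 := by field_simp; norm_num
    linarith
  have hfin := norm_add_le (∑ j : Fin n, cexp (I * ((u * e j : ℝ) : ℂ)) *
      (Real.exp (-(e j) ^ 2 / 2) : ℂ)
      - ∑ j : Fin n, cexp (I * ((u * (e0 + (j : ℕ) * (2 * Real.pi / L)) : ℝ) : ℂ)))
    (∑ j : Fin n, cexp (I * ((u * (e0 + (j : ℕ) * (2 * Real.pi / L)) : ℝ) : ℂ)))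
  rw [sub_add_cancel] at hfin
  linarith

/-- a finite set in which consecutive elements have gaps close to `g` is almost a progression -/
theorem gaps (Γ : Finset ℝ) (g δ : ℝ) (n : ℕ) (hcard : Γ.card = n)
    (hgap : ∀ y ∈ Γ, ∀ y' ∈ Γ, y < y' → (∀ z ∈ Γ, y < z → y' ≤ z) → |y' - y - g| ≤ δ)
    (h0 : 0 < n) : ∀ j : Fin n,
      |Γ.orderEmbOfFin hcard j - Γ.orderEmbOfFin hcard ⟨0, h0⟩ - (j : ℕ) * g| ≤ (j : ℕ) * δ := by
  intro ⟨j, hj⟩
  induction j with
  | zero => simp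
  | succ j ih =>
    have hj' : j < n := by omega
    have ih' := ih hj'
    have hlt : Γ.orderEmbOfFin hcard ⟨j, hj'⟩ < Γ.orderEmbOfFin hcard ⟨j + 1, hj⟩ := by
      apply (Γ.orderEmbOfFin hcard).strictMono
      exact Fin.mk_lt_mk.mpr (Nat.lt_succ_self j)
    have hnext : ∀ z ∈ Γ, Γ.orderEmbOfFin hcard ⟨j, hj'⟩ < z →
        Γ.orderEmbOfFin hcard ⟨j + 1, hj⟩ ≤ z := by
      intro z hz hlt'
      have hz' : z ∈ Set.range (Γ.orderEmbOfFin hcard) := by
        rw [Finset.range_orderEmbOfFin]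
        exact hz
      obtain ⟨k, rfl⟩ := hz'
      have hk : (⟨j, hj'⟩ : Fin n) < k := (Γ.orderEmbOfFin hcard).lt_iff_lt.mp hlt'
      apply (Γ.orderEmbOfFin hcard).monotone
      rw [Fin.le_def]
      rw [Fin.lt_def] at hk
      exact hk
    have h1 := hgap _ (Finset.orderEmbOfFin_mem Γ hcard ⟨j, hj'⟩) _
      (Finset.orderEmbOfFin_mem Γ hcard ⟨j + 1, hj⟩) hlt hnext
    have h2 : Γ.orderEmbOfFin hcard ⟨j + 1, hj⟩ - Γ.orderEmbOfFin hcard ⟨0, h0⟩
        - ((⟨j + 1, hj⟩ : Fin n) : ℕ) * g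
        = (Γ.orderEmbOfFin hcard ⟨j + 1, hj⟩ - Γ.orderEmbOfFin hcard ⟨j, hj'⟩ - g)
          + (Γ.orderEmbOfFin hcard ⟨j, hj'⟩ - Γ.orderEmbOfFin hcard ⟨0, h0⟩
            - ((⟨j, hj'⟩ : Fin n) : ℕ) * g) := by
      push_cast
      ring
    rw [h2]
    refine (abs_add_le _ _).trans ((add_le_add h1 ih').trans (le_of_eq ?_))
    push_cast
    ring

theorem ns : S_NS := by
  intro W' hW'
  have hW0 : 0 < W' := by linarith
  refine ⟨1 / W' ^ 2, Real.exp (W' ^ 2), by positivity, ?_, ?_⟩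
  · have := Real.add_one_le_exp (W' ^ 2)
    nlinarith
  intro T t hT hTt ht2 hGZ u hu1 hu2
  unfold GZ at hGZ
  set L := Real.log T with hL
  have hTpos : 0 < T := (Real.exp_pos _).trans_le hT
  have hLW : W' ^ 2 ≤ L := by
    rw [hL]
    exact (Real.le_log_iff_exp_le hTpos).mpr hT
  have hL0 : 0 < L := lt_of_lt_of_le (by positivity) hLW
  -- finiteness
  have hfin : {b : Zr | |(b : ℂ).im - t| ≤ W' / L}.Finite := by
    have h1 := Pool.Agent.H115.HP.fin_zeros (|t| + W' / L)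
    have h2 : {b : Zr | |(b : ℂ).im - t| ≤ W' / L} ⊆
        Subtype.val ⁻¹' {b : ℂ | Yz b = 0 ∧ ‖b‖ ≤ |t| + W' / L} := by
      intro b hb
      have hb' : |(b : ℂ).im - t| ≤ W' / L := hb
      refine ⟨b.2, ?_⟩
      have hre := (hGZ b b.2 hb').1
      have h4 := Complex.norm_le_abs_re_add_abs_im (b : ℂ)
      rw [hre, abs_zero, zero_add] at h4
      have h3 : |(b : ℂ).im| ≤ |t| + |(b : ℂ).im - t| := by
        have := abs_add_le t ((b : ℂ).im - t)
        rwa [add_sub_cancel] at this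
      linarith
    exact (h1.preimage (Subtype.val_injective.injOn)).subset h2
  set B : Finset Zr := hfin.toFinset with hB
  have hBmem : ∀ b : Zr, b ∈ B ↔ |(b : ℂ).im - t| ≤ W' / L := by
    intro b
    rw [hB, Set.Finite.mem_toFinset]
    rfl
  -- the sum
  set f : ℝ → ℂ := fun y => cexp (I * ((u * y : ℝ) : ℂ)) * (Real.exp (-y ^ 2 / 2) : ℂ) with hf
  have hNS : NS T W' t u = ∑ b ∈ B, f ((b : ℂ).im - t) := by
    unfold NS
    rw [tsum_eq_sum (s := B)]
    · apply Finset.sum_congr rfl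
      intro b hb
      rw [hBmem] at hb
      rw [if_pos hb]
      obtain ⟨hre, hmu, _⟩ := hGZ b b.2 hb
      have hbI : (b : ℂ) = I * ((b : ℂ).im : ℂ) := by
        apply Complex.ext
        · simp [hre]
        · simp
      have h1 : (u : ℂ) * ((b : ℂ) - I * t) = I * ((u * ((b : ℂ).im - t) : ℝ) : ℂ) := by
        push_cast
        linear_combination (u : ℂ) * hbI
      have h2 : ((b : ℂ) - I * t) ^ 2 / 2 = ((-((b : ℂ).im - t) ^ 2 / 2 : ℝ) : ℂ) := by
        have h3 : (b : ℂ) - I * t = I * (((b : ℂ).im : ℂ) - t) := by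
          linear_combination hbI
        rw [h3, mul_pow, Complex.I_sq]
        push_cast
        ring
      rw [hmu, Complex.ofReal_one, one_mul, hf]
      unfold gw
      rw [h1, h2, ← Complex.ofReal_exp]
    · intro b hb
      rw [hBmem] at hb
      rw [if_neg hb]
  set Γ : Finset ℝ := B.image (fun b : Zr => (b : ℂ).im - t) with hΓ
  have hinj : Set.InjOn (fun b : Zr => (b : ℂ).im - t) (B : Set Zr) := by
    intro b hb b' hb' hbb
    have hb1 : b ∈ B := hb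
    have hb2 : b' ∈ B := hb'
    rw [hBmem] at hb1 hb2
    have hr1 := (hGZ b b.2 hb1).1
    have hr2 := (hGZ b' b'.2 hb2).1
    apply Subtype.ext
    apply Complex.ext
    · rw [hr1, hr2]
    · have : (b : ℂ).im - t = (b' : ℂ).im - t := hbb
      linarith
  have hsumΓ : ∑ b ∈ B, f ((b : ℂ).im - t) = ∑ y ∈ Γ, f y := by
    rw [hΓ, Finset.sum_image hinj]
  have hwin : ∀ y ∈ Γ, |y| ≤ W' / L := by
    intro y hy
    rw [hΓ, Finset.mem_image] at hy
    obtain ⟨b, hb, rfl⟩ := hy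
    exact (hBmem b).mp hb
  have hgap : ∀ y ∈ Γ, ∀ y' ∈ Γ, y < y' → (∀ z ∈ Γ, y < z → y' ≤ z) →
      |y' - y - 2 * Real.pi / L| ≤ 1 / W' ^ 2 / L := by
    intro y hy y' hy' hlt hnext
    have hwy' := hwin y' hy'
    rw [hΓ, Finset.mem_image] at hy hy'
    obtain ⟨b, hb, rfl⟩ := hy
    obtain ⟨b', hb', rfl⟩ := hy'
    rw [hBmem] at hb
    obtain ⟨hre, hmu, g, hg0, hg, hz, hno⟩ := hGZ b b.2 hb
    have him : ((b : ℂ) + (g : ℂ) * I).im = (b : ℂ).im + g := by simp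
    have h1 : (b : ℂ).im + g ≤ (b' : ℂ).im := by
      by_contra hcon
      push Not at hcon
      exact hno b' (by linarith) hcon b'.2
    have h2 : (b : ℂ).im + g - t ∈ Γ := by
      rw [hΓ, Finset.mem_image]
      refine ⟨⟨(b : ℂ) + (g : ℂ) * I, hz⟩, ?_, ?_⟩
      · rw [hBmem]
        show |((b : ℂ) + (g : ℂ) * I).im - t| ≤ W' / L
        rw [him]
        rw [abs_le] at hb hwy' ⊢
        constructor <;> linarith [hb.1, hb.2, hwy'.1, hwy'.2]
      · show ((b : ℂ) + (g : ℂ) * I).im - t = (b : ℂ).im + g - t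
        rw [him]
    have h3 := hnext _ h2 (by linarith)
    have h4 : (b' : ℂ).im - t - ((b : ℂ).im - t) = g := by linarith
    rw [h4]
    exact hg
  rw [hNS, hsumΓ]
  rcases Nat.eq_zero_or_pos Γ.card with h0 | h0
  · rw [Finset.card_eq_zero.mp h0, Finset.sum_empty, norm_zero]
    norm_num
  set n := Γ.card with hn
  have hlin := gaps Γ (2 * Real.pi / L) (1 / W' ^ 2 / L) n rfl hgap h0
  have hsumF : ∑ y ∈ Γ, f y = ∑ j : Fin n, f (Γ.orderEmbOfFin rfl j) := by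
    have h1 : Γ = Finset.map (Γ.orderEmbOfFin rfl).toEmbedding Finset.univ :=
      (Finset.map_orderEmbOfFin_univ Γ rfl).symm
    conv_lhs => rw [h1]
    rw [Finset.sum_map]
    rfl
  rw [hsumF]
  have hwin' : ∀ j : Fin n, |Γ.orderEmbOfFin rfl j| ≤ W' / L :=
    fun j => hwin _ (Finset.orderEmbOfFin_mem Γ rfl j)
  have hε1 : 1 / W' ^ 2 ≤ 1 / 100 := by
    apply one_div_le_one_div_of_le (by norm_num)
    nlinarith
  have hnW : (n : ℝ) ≤ W' := by
    have h1 := hlin ⟨n - 1, by omega⟩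
    have h2 := hwin' ⟨n - 1, by omega⟩
    have h3 := hwin' ⟨0, h0⟩
    have hcast : (((⟨n - 1, by omega⟩ : Fin n) : ℕ) : ℝ) = (n : ℝ) - 1 := by
      show ((n - 1 : ℕ) : ℝ) = (n : ℝ) - 1
      rw [Nat.cast_sub (by omega), Nat.cast_one]
    rw [hcast] at h1
    have hn1 : (0 : ℝ) ≤ (n : ℝ) - 1 := by
      have : (1 : ℝ) ≤ n := by exact_mod_cast h0
      linarith
    have h4 := (abs_le.mp h1).1
    have h5 := (abs_le.mp h2).2
    have h6 := (abs_le.mp h3).1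
    have h7 : ((n : ℝ) - 1) * (2 * Real.pi / L) - ((n : ℝ) - 1) * (1 / W' ^ 2 / L) ≤ 2 * (W' / L) := by
      linarith
    have h8 : ((n : ℝ) - 1) * ((2 * Real.pi - 1 / W' ^ 2) / L) ≤ 2 * W' / L := by
      calc ((n : ℝ) - 1) * ((2 * Real.pi - 1 / W' ^ 2) / L)
          = ((n : ℝ) - 1) * (2 * Real.pi / L) - ((n : ℝ) - 1) * (1 / W' ^ 2 / L) := by ring
        _ ≤ 2 * (W' / L) := h7
        _ = 2 * W' / L := by ring
    rw [← mul_div_assoc, div_le_div_iff_of_pos_right hL0] at h8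
    have h9 : (6 : ℝ) ≤ 2 * Real.pi - 1 / W' ^ 2 := by
      have := Real.pi_gt_d2
      linarith
    have h10 : ((n : ℝ) - 1) * 6 ≤ 2 * W' := (mul_le_mul_of_nonneg_left h9 hn1).trans h8
    linarith
  have hWε : W' ^ 2 * (1 / W' ^ 2) ≤ 1 := le_of_eq (by field_simp)
  have hWL : W' ^ 3 ≤ L ^ 2 := by
    have h1 : (W' ^ 2) ^ 2 ≤ L ^ 2 := pow_le_pow_left₀ (by positivity) hLW 2
    have h2 : W' ^ 3 ≤ (W' ^ 2) ^ 2 := by
      have : (W' ^ 2) ^ 2 = W' ^ 3 * W' := by ring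
      rw [this]
      exact le_mul_of_one_le_right (by positivity) (by linarith)
    exact h2.trans h1
  exact prog n (fun j => Γ.orderEmbOfFin rfl j) u L (1 / W' ^ 2) W' (Γ.orderEmbOfFin rfl ⟨0, h0⟩)
    hL0 (by positivity) hu1 hu2 hW0 hnW hWε hWL hlin hwin'

end Pool.Agent.H79.HN
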